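import Pool.Agent.W603.BP.Tame

/-!
Annuli without zeros and poles, factorisation in an annulus (for job OG-B3).
-/

set_option autoImplicit false

namespace Pool.Agent.Y248.OG

open Metric Set Complex Filter Pool.Agent.W603.BP
open scoped Real Topology

/-- a meromorphic function that is nowhere of infinite order has no zeros and poles in some
annulus -/
theorem ann_free {r0 : ℝ} {F : ℂ → ℂ} (hF : MeromorphicOn F (Ext r0))
    (hord : ∀ z ∈ Ext r0, meromorphicOrderAt F z ≠ ⊤) :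
    ∃ r1 r2, r0 < r1 ∧ r1 < r2 ∧ r2 < r0 + 1 ∧
      ∀ z, r1 < ‖z‖ → ‖z‖ < r2 → AnalyticAt ℂ F z ∧ F z ≠ 0 := by
  classical
  have hcod' : ∀ z ∈ Ext r0, ∀ᶠ w in 𝓝 z, w = z ∨ (AnalyticAt ℂ F w ∧ F w ≠ 0) := by
    intro z hz
    have h1 := (hF z hz).eventually_analyticAt
    have h2 := (meromorphicOrderAt_ne_top_iff_eventually_ne_zero (hF z hz)).1 (hord z hz)
    rw [eventually_nhdsWithin_iff] at h1 h2
    filter_upwards [h1, h2] with w hw1 hw2
    by_cases hwz : w = z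
    · exact Or.inl hwz
    · exact Or.inr ⟨hw1 hwz, hw2 hwz⟩
  set K : Set ℂ := {z : ℂ | r0 + 1 / 4 ≤ ‖z‖ ∧ ‖z‖ ≤ r0 + 3 / 4} with hK
  have hKc : IsCompact K := by
    apply (isCompact_closedBall (0 : ℂ) (r0 + 3 / 4)).of_isClosed_subset
    · exact (isClosed_le continuous_const continuous_norm).inter
        (isClosed_le continuous_norm continuous_const)
    · intro z hz
      rw [mem_closedBall, dist_zero_right]
      exact hz.2
  have hKE : ∀ z ∈ K, z ∈ Ext r0 := fun z hz => by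
    have := hz.1
    change r0 < ‖z‖
    linarith
  obtain ⟨t, -, ht⟩ := hKc.elim_nhds_subcover (fun z => {w | w = z ∨ (AnalyticAt ℂ F w ∧ F w ≠ 0)})
    (fun z hz => hcod' z (hKE z hz))
  have hzeros : ∀ z ∈ K, ¬ (AnalyticAt ℂ F z ∧ F z ≠ 0) → z ∈ t := by
    intro z hz h0
    obtain ⟨x, hx, hzx⟩ := mem_iUnion₂.mp (ht hz)
    rcases hzx with h | h
    · rw [h]; exact hx
    · exact absurd h h0
  set T : Finset ℝ := t.image (fun z => ‖z‖) with hT
  have hTo : IsOpen ((T : Set ℝ)ᶜ) := (Finset.finite_toSet T).isClosed.isOpen_compl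
  have hUo : IsOpen (Ioo (r0 + 1 / 4) (r0 + 3 / 4) ∩ (T : Set ℝ)ᶜ) := isOpen_Ioo.inter hTo
  have hUne : (Ioo (r0 + 1 / 4) (r0 + 3 / 4) ∩ (T : Set ℝ)ᶜ).Nonempty := by
    have h1 : (Ioo (r0 + 1 / 4) (r0 + 3 / 4)).Infinite := Ioo_infinite (by linarith)
    exact (h1.sdiff (Finset.finite_toSet T)).nonempty
  obtain ⟨s, hs⟩ := hUne
  obtain ⟨ε, hε, hball⟩ := Metric.isOpen_iff.mp hUo s hs
  have hin : ∀ x, |x - s| < ε → x ∈ Ioo (r0 + 1 / 4) (r0 + 3 / 4) ∩ (T : Set ℝ)ᶜ := by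
    intro x hx
    exact hball (by rw [mem_ball, Real.dist_eq]; exact hx)
  refine ⟨s - ε / 2, s + ε / 2, ?_, by linarith, ?_, ?_⟩
  · have h1 := (hin (s - ε / 2) (by rw [abs_lt]; constructor <;> linarith)).1.1
    linarith
  · have h1 := (hin (s + ε / 2) (by rw [abs_lt]; constructor <;> linarith)).1.2
    linarith
  · intro z h1 h2
    by_contra h0
    have h4 := hin ‖z‖ (by rw [abs_lt]; constructor <;> linarith)
    have h5 : z ∈ K := ⟨h4.1.1.le, h4.1.2.le⟩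
    have h6 := hzeros z h5 h0
    apply h4.2
    rw [hT, Finset.coe_image]
    exact ⟨z, h6, rfl⟩

/-- factorisation in an annulus -/
theorem birk_ann {F : ℂ → ℂ} {r0 r1 a b : ℝ} (hr0 : 0 ≤ r0) (ha : r0 < a) (hab : a < b)
    (hb : b < r1) (hF : DifferentiableOn ℂ F {z | r0 < ‖z‖ ∧ ‖z‖ < r1})
    (hne : ∀ z, r0 < ‖z‖ → ‖z‖ < r1 → F z ≠ 0) :
    ∃ (k : ℤ) (q p : ℂ → ℂ) (C : ℂ), C ≠ 0 ∧ DifferentiableOn ℂ q (ball 0 a⁻¹) ∧
      DifferentiableOn ℂ p (ball 0 b) ∧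
      ∀ z, a < ‖z‖ → ‖z‖ < b → F z = z ^ k * exp (q z⁻¹) * (C * exp (p z)) := by
  have ha0 : 0 < a := hr0.trans_lt ha
  have hb0 : 0 < b := ha0.trans hab
  have hA : IsOpen {z : ℂ | r0 < ‖z‖ ∧ ‖z‖ < r1} :=
    (isOpen_lt continuous_const continuous_norm).inter (isOpen_lt continuous_norm continuous_const)
  have hφ : DifferentiableOn ℂ (fun z => deriv F z / F z) {z | r0 < ‖z‖ ∧ ‖z‖ < r1} :=
    (hF.deriv hA).fun_div hF (fun z hz => hne z hz.1 hz.2)
  obtain ⟨P, Q, hP, hQ, hPQ⟩ := split hr0 ha hab hb hφ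
  obtain ⟨p, hp⟩ := hP.isExactOn_ball
  have h0mem : (0 : ℂ) ∈ ball (0 : ℂ) a⁻¹ := mem_ball_self (inv_pos.mpr ha0)
  have hQ1 : DifferentiableOn ℂ (dslope Q 0) (ball 0 a⁻¹) :=
    (Complex.differentiableOn_dslope (isOpen_ball.mem_nhds h0mem)).mpr hQ
  obtain ⟨q, hq⟩ := hQ1.isExactOn_ball
  set κ : ℂ := Q 0 with hκ
  have hz0 : ∀ z : ℂ, a < ‖z‖ → z ≠ 0 := by
    intro z hz h
    rw [h, norm_zero] at hz
    linarith
  have hinv : ∀ z : ℂ, a < ‖z‖ → z⁻¹ ∈ ball (0 : ℂ) a⁻¹ := by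
    intro z hz
    rw [mem_ball, dist_zero_right, norm_inv]
    exact inv_strictAnti₀ ha0 hz
  let Φ : ℂ → ℂ := fun z => F z * exp (-p z) * exp (q z⁻¹)
  obtain ⟨k, C, hC, hk, hΦk⟩ := power_of_ode (Φ := Φ) ha0 hab κ (by
    intro z h1 h2
    have hzn := hz0 z h1
    have hFd : HasDerivAt F (deriv F z) z :=
      (hF.differentiableAt (hA.mem_nhds ⟨ha.trans h1, h2.trans hb⟩)).hasDerivAt
    have hpd : HasDerivAt (fun z => exp (-p z)) (exp (-p z) * -P z) z :=
      (hp z (by simpa using h2)).neg.cexp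
    have hqd : HasDerivAt (fun z => exp (q z⁻¹))
        (exp (q z⁻¹) * (dslope Q 0 z⁻¹ * -(z ^ 2)⁻¹)) z :=
      ((hq z⁻¹ (hinv z h1)).comp z (hasDerivAt_inv hzn)).cexp
    have h3 := (hFd.mul hpd).mul hqd
    have h4 := hPQ z h1 h2
    have hFn := hne z (ha.trans h1) (h2.trans hb)
    have hds : Q z⁻¹ = κ + z⁻¹ * dslope Q 0 z⁻¹ := by
      have := sub_smul_dslope Q 0 z⁻¹
      rw [sub_zero, smul_eq_mul] at this
      rw [this, hκ]; ring
    rw [hds, div_eq_iff hFn] at h4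
    have e : (deriv F z * exp (-p z) + F z * (exp (-p z) * -P z)) * exp (q z⁻¹)
        + F z * exp (-p z) * (exp (q z⁻¹) * (dslope Q 0 z⁻¹ * -(z ^ 2)⁻¹))
        = κ * z⁻¹ * Φ z := by
      simp only [Φ]
      rw [h4]
      field_simp
      ring
    have h5 : HasDerivAt Φ ((deriv F z * exp (-p z) + F z * (exp (-p z) * -P z)) * exp (q z⁻¹)
        + F z * exp (-p z) * (exp (q z⁻¹) * (dslope Q 0 z⁻¹ * -(z ^ 2)⁻¹))) z := h3
    rw [e] at h5
    exact h5) (by
    intro z h1 h2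
    exact mul_ne_zero (mul_ne_zero (hne z (ha.trans h1) (h2.trans hb)) (Complex.exp_ne_zero _))
      (Complex.exp_ne_zero _))
  refine ⟨k, fun w => -q w, p, C, hC, fun w hw =>
    (hq w hw).differentiableAt.differentiableWithinAt.fun_neg, fun w hw =>
    (hp w hw).differentiableAt.differentiableWithinAt, ?_⟩
  intro z h1 h2
  have h3 := hΦk z h1 h2
  have e1 : F z = Φ z * exp (p z) * exp (-q z⁻¹) := by
    simp only [Φ]
    rw [Complex.exp_neg, Complex.exp_neg]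
    have := Complex.exp_ne_zero (p z)
    have := Complex.exp_ne_zero (q z⁻¹)
    field_simp
  rw [e1, h3]
  ring

/-- a meromorphic function outside of a disc is the product of a unit of moderate growth and of a
meromorphic function on the plane -/
theorem factor {r0 : ℝ} (hr0 : 1 ≤ r0) {F : ℂ → ℂ} (hF : MeromorphicOn F (Ext r0))
    (hord : ∀ z ∈ Ext r0, meromorphicOrderAt F z ≠ ⊤) :
    ∃ (a b : ℝ) (H G : ℂ → ℂ), r0 < a ∧ a < b ∧ b < r0 + 1 ∧ Tame a H ∧ Meromorphic G ∧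
      (∀ z, ‖z‖ < b → AnalyticAt ℂ G z ∧ G z ≠ 0) ∧ ∀ z, a < ‖z‖ → F z = H z * G z := by
  obtain ⟨r1, r2, h01, h12, h2, hfree⟩ := ann_free hF hord
  obtain ⟨a, ha, har⟩ := exists_between h12
  obtain ⟨b, hab, hbr⟩ := exists_between har
  have hr0' : 0 ≤ r0 := by linarith
  have ha0 : 0 < a := by linarith
  obtain ⟨k, q, p, C, hC, hq, hp, hFe⟩ := birk_ann (F := F) (r0 := r1) (r1 := r2) (by linarith) ha
    hab hbr (fun z hz => (hfree z hz.1 hz.2).1.differentiableAt.differentiableWithinAt)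
    (fun z h1 h2 => (hfree z h1 h2).2)
  have hT : Tame a (fun z => z ^ k * exp (q z⁻¹)) := tame_of (by linarith) k hq
  set H : ℂ → ℂ := fun z => z ^ k * exp (q z⁻¹) with hH
  classical
  let G : ℂ → ℂ := fun z => if ‖z‖ < b then C * exp (p z) else F z / H z
  have hG1 : ∀ z, ‖z‖ < b → G z = C * exp (p z) := fun z hz => if_pos hz
  have hG2 : ∀ z, a < ‖z‖ → G z = F z / H z := by
    intro z hz
    by_cases h : ‖z‖ < b
    · rw [hG1 z h, hFe z hz h]
      have h1 : H z ≠ 0 := hT.ne z hz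
      rw [show z ^ k * exp (q z⁻¹) = H z from rfl]
      field_simp
    · exact if_neg h
  have hGan : ∀ z, ‖z‖ < b → AnalyticAt ℂ G z := by
    intro z hz
    have h1 : AnalyticAt ℂ (fun z => C * exp (p z)) z :=
      analyticAt_const.fun_mul ((hp.analyticAt (isOpen_ball.mem_nhds (by simpa using hz))).cexp)
    refine h1.congr ?_
    filter_upwards [(isOpen_lt continuous_norm continuous_const).mem_nhds hz] with w hw
    exact (hG1 w hw).symm
  refine ⟨a, b, H, G, by linarith, hab, by linarith, hT, ?_, ?_, ?_⟩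
  · intro z
    by_cases h : ‖z‖ < b
    · exact (hGan z h).meromorphicAt
    · have haz : a < ‖z‖ := hab.trans_le (not_lt.mp h)
      have h1 : MeromorphicAt (fun z => F z / H z) z :=
        (hF z (by change r0 < ‖z‖; linarith)).fun_div (hT.an z haz).meromorphicAt
      refine h1.congr ?_
      filter_upwards [nhdsWithin_le_nhds ((Ext_open a).mem_nhds haz)] with w hw
      exact (hG2 w hw).symm
  · intro z hz
    refine ⟨hGan z hz, ?_⟩
    rw [hG1 z hz]
    exact mul_ne_zero hC (Complex.exp_ne_zero _)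
  · intro z hz
    rw [hG2 z hz]
    have h1 : H z ≠ 0 := hT.ne z hz
    field_simp

end Pool.Agent.Y248.OG
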