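import Pool.Agent.Y192.OG.StB
import Pool.Agent.Y248.OG.JenA

/-!
Jensen's formula for meromorphic functions outside of a disc (job OG-B3).
-/

set_option autoImplicit false

namespace Pool.Agent.Y248.OG

open Metric Set Complex Filter Pool.Agent.W603.BP Pool.Agent.Y192.OG
open scoped Real Topology

theorem jensen_ext {r0 : ℝ} (hr0 : 1 ≤ r0) {F : ℂ → ℂ} (hF : MeromorphicOn F (Ext r0))
    (hord : ∀ z ∈ Ext r0, meromorphicOrderAt F z ≠ ⊤) :
    ∃ C : ℝ, ∀ R : ℝ, r0 + 2 ≤ R →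
      |Real.circleAverage (fun z => Real.log ‖F z‖) 0 R
        - ∑ᶠ z ∈ {z : ℂ | r0 + 1 ≤ ‖z‖ ∧ ‖z‖ ≤ R},
          (((meromorphicOrderAt F z).untop₀ : ℤ) : ℝ) * Real.log (R / ‖z‖)| ≤
        C * (1 + Real.log R) := by
  classical
  obtain ⟨a, b, H, G, h0a, hab, hb1, hT, hG, hGfree, hFG⟩ := factor hr0 hF hord
  have hF0 : ∀ z, a < ‖z‖ → F =ᶠ[𝓝 z] (H * G) := by
    intro z hz
    filter_upwards [(Ext_open a).mem_nhds hz] with w hw
    exact hFG w hw
  have hoFG : ∀ z, a < ‖z‖ → meromorphicOrderAt F z = meromorphicOrderAt G z := by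
    intro z hz
    rw [meromorphicOrderAt_congr ((hF0 z hz).filter_mono nhdsWithin_le_nhds)]
    exact meromorphicOrderAt_mul_of_ne_zero (hT.an z hz) (hT.ne z hz)
  have hoG0 : ∀ z, ‖z‖ < b → meromorphicOrderAt G z = 0 := by
    intro z hz
    obtain ⟨h1, h2⟩ := hGfree z hz
    rw [h1.meromorphicOrderAt_eq, h1.analyticOrderAt_eq_zero.mpr h2]
    rfl
  have hoGtop : ∀ z, meromorphicOrderAt G z ≠ ⊤ := by
    intro z
    by_cases h : ‖z‖ < b
    · rw [hoG0 z h]; exact WithTop.zero_ne_top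
    · rw [← hoFG z (by linarith [not_lt.mp h])]
      exact hord z (by change r0 < ‖z‖; linarith [not_lt.mp h])
  set e : ℂ → ℝ := fun z => (((meromorphicOrderAt G z).untop₀ : ℤ) : ℝ) with he
  have he0 : ∀ z, ‖z‖ < b → e z = 0 := by
    intro z hz
    simp only [he]
    rw [hoG0 z hz]; simp
  -- finiteness
  have hfin : ∀ R : ℝ, {z : ℂ | ‖z‖ ≤ R ∧ e z ≠ 0}.Finite := by
    intro R
    have h1 := (MeromorphicOn.divisor G (closedBall 0 R)).finiteSupport (isCompact_closedBall 0 R)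
    refine h1.subset fun z hz => ?_
    rw [Function.mem_support, MeromorphicOn.divisor_apply (fun z _ => hG z)
      (by rw [mem_closedBall, dist_zero_right]; exact hz.1)]
    intro hcon
    apply hz.2
    simp only [he]
    rw [hcon]; simp
  -- nonvanishing on circles
  have hGne : ∀ R : ℝ, ∀ᶠ z in codiscreteWithin (sphere (0 : ℂ) |R|), G z ≠ 0 := by
    intro R
    rw [Filter.Eventually, mem_codiscreteWithin_iff_forall_mem_nhdsNE]
    intro x _
    have h1 := (meromorphicOrderAt_ne_top_iff_eventually_ne_zero (hG x)).1 (hoGtop x)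
    filter_upwards [h1] with w hw
    exact Or.inl hw
  obtain ⟨CH, hCH, κ, hbd⟩ := hT.bd
  set S : Finset ℂ := ((hfin (r0 + 1)).subset (fun z (hz : b ≤ ‖z‖ ∧ ‖z‖ < r0 + 1 ∧ e z ≠ 0) =>
    (⟨hz.2.1.le, hz.2.2⟩ : z ∈ {z : ℂ | ‖z‖ ≤ r0 + 1 ∧ e z ≠ 0}))).toFinset with hS
  set K1 : ℝ := ∑ z ∈ S, |e z| with hK1
  have hK10 : 0 ≤ K1 := Finset.sum_nonneg fun z _ => abs_nonneg _
  set t0 : ℝ := Real.log ‖meromorphicTrailingCoeffAt G 0‖ with ht0
  refine ⟨Real.log CH + κ + K1 + |t0|, fun R hR => ?_⟩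
  have hR0 : 0 < R := by linarith
  have hR1 : 1 ≤ R := by linarith
  have hlR : 0 ≤ Real.log R := Real.log_nonneg hR1
  have hlC : 0 ≤ Real.log CH := Real.log_nonneg hCH
  have habsR : |R| = R := abs_of_pos hR0
  -- Jensen for G
  have hJ := MeromorphicOn.circleAverage_log_norm (c := 0) (R := R) (f := G) hR0.ne'
    (fun z _ => hG z)
  rw [habsR] at hJ
  have hD0 : MeromorphicOn.divisor G (closedBall 0 R) 0 = 0 := by
    rw [MeromorphicOn.divisor_apply (fun z _ => hG z) (by simp [hR0.le]), hoG0 0 (by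
      rw [norm_zero]; linarith)]
    rfl
  rw [hD0] at hJ
  simp only [Int.cast_zero, zero_mul, add_zero] at hJ
  set g : ℂ → ℝ := fun z => e z * Real.log (R / ‖z‖) with hg
  have hJ2 : ∑ᶠ u, (MeromorphicOn.divisor G (closedBall 0 R) u : ℝ) * Real.log (R * ‖0 - u‖⁻¹) =
      ∑ᶠ u ∈ ({z : ℂ | b ≤ ‖z‖ ∧ ‖z‖ < r0 + 1} ∪ {z : ℂ | r0 + 1 ≤ ‖z‖ ∧ ‖z‖ ≤ R}), g u := by
    refine finsum_congr fun u => ?_
    by_cases hu : u ∈ ({z : ℂ | b ≤ ‖z‖ ∧ ‖z‖ < r0 + 1} ∪ {z : ℂ | r0 + 1 ≤ ‖z‖ ∧ ‖z‖ ≤ R})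
    · have huR : ‖u‖ ≤ R := by
        rcases hu with h | h
        · exact h.2.le.trans (by linarith)
        · exact h.2
      rw [finsum_eq_if, if_pos hu]
      rw [MeromorphicOn.divisor_apply (fun z _ => hG z)
        (by rw [mem_closedBall, dist_zero_right]; exact huR), zero_sub, norm_neg, ← div_eq_mul_inv]
    · rw [finsum_eq_if, if_neg hu]
      by_cases huR : ‖u‖ ≤ R
      · have hub : ‖u‖ < b := by
          by_contra hcon
          rw [not_lt] at hcon
          apply hu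
          by_cases h3 : ‖u‖ < r0 + 1
          · exact Or.inl ⟨hcon, h3⟩
          · exact Or.inr ⟨not_lt.mp h3, huR⟩
        rw [MeromorphicOn.divisor_apply (fun z _ => hG z)
          (by rw [mem_closedBall, dist_zero_right]; exact huR), hoG0 u hub]
        simp
      · have : MeromorphicOn.divisor G (closedBall 0 R) u = 0 :=
          Function.locallyFinsuppWithin.apply_eq_zero_of_notMem _
            (by rw [mem_closedBall, dist_zero_right]; exact huR)
        rw [this]; simp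
  have hfs : ∀ s : Set ℂ, (∀ z ∈ s, ‖z‖ ≤ R) → (s ∩ Function.support g).Finite := by
    intro s hs
    refine (hfin R).subset fun z hz => ⟨hs z hz.1, fun hcon => hz.2 ?_⟩
    simp only [hg]
    rw [hcon, zero_mul]
  have hdisj : Disjoint {z : ℂ | b ≤ ‖z‖ ∧ ‖z‖ < r0 + 1} {z : ℂ | r0 + 1 ≤ ‖z‖ ∧ ‖z‖ ≤ R} := by
    rw [Set.disjoint_left]
    intro z h1 h2
    exact absurd h1.2 (not_lt.mpr h2.1)
  rw [hJ2, finsum_mem_union' hdisj (hfs _ fun z hz => hz.2.le.trans (by linarith))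
    (hfs _ fun z hz => hz.2)] at hJ
  -- the inner part
  have hin : ∑ᶠ u ∈ {z : ℂ | b ≤ ‖z‖ ∧ ‖z‖ < r0 + 1}, g u = ∑ u ∈ S, g u := by
    apply finsum_mem_eq_sum_of_inter_support_eq
    ext z
    rw [mem_inter_iff, mem_inter_iff, Finset.mem_coe, hS, Set.Finite.mem_toFinset]
    constructor
    · rintro ⟨h1, h2⟩
      refine ⟨⟨h1.1, h1.2, fun hcon => h2 ?_⟩, h2⟩
      simp only [hg]
      rw [hcon, zero_mul]
    · rintro ⟨h1, h2⟩
      exact ⟨⟨h1.1, h1.2.1⟩, h2⟩
  have hinb : |∑ u ∈ S, g u| ≤ K1 * Real.log R := by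
    rw [hK1, Finset.sum_mul]
    refine (Finset.abs_sum_le_sum_abs _ _).trans (Finset.sum_le_sum fun u hu => ?_)
    rw [hS, Set.Finite.mem_toFinset] at hu
    have hu1 : 1 ≤ ‖u‖ := by linarith [hu.1]
    have hu2 : ‖u‖ ≤ R := by linarith [hu.2.1]
    have hl0 : 0 ≤ Real.log (R / ‖u‖) := Real.log_nonneg (by rw [one_le_div (by linarith)]; exact hu2)
    have hl1 : Real.log (R / ‖u‖) ≤ Real.log R :=
      Real.log_le_log (by positivity) (div_le_self hR0.le hu1)
    simp only [hg]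
    rw [abs_mul, abs_of_nonneg hl0]
    exact mul_le_mul_of_nonneg_left hl1 (abs_nonneg _)
  -- the outer part
  have hout : ∑ᶠ z ∈ {z : ℂ | r0 + 1 ≤ ‖z‖ ∧ ‖z‖ ≤ R},
      (((meromorphicOrderAt F z).untop₀ : ℤ) : ℝ) * Real.log (R / ‖z‖) =
      ∑ᶠ u ∈ {z : ℂ | r0 + 1 ≤ ‖z‖ ∧ ‖z‖ ≤ R}, g u := by
    refine finsum_mem_congr rfl fun z hz => ?_
    simp only [hg, he]
    rw [hoFG z (by linarith [hz.1])]
  -- the unit
  have hHci : CircleIntegrable (fun z => Real.log ‖H z‖) 0 R := by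
    apply MeromorphicOn.circleIntegrable_log_norm
    intro z hz
    rw [mem_sphere, dist_zero_right, habsR] at hz
    exact (hT.an z (by change a < ‖z‖; linarith)).meromorphicAt
  have hHb : |Real.circleAverage (fun z => Real.log ‖H z‖) 0 R| ≤ Real.log CH + κ * Real.log R := by
    refine (Real.abs_circleAverage_le_circleAverage_abs).trans ?_
    apply Real.circleAverage_mono_on_of_le_circle hHci.abs
    intro z hz
    rw [mem_sphere, dist_zero_right, habsR] at hz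
    obtain ⟨h1, h2⟩ := hbd z (by linarith)
    rw [hz] at h1 h2
    have hHne : 0 < ‖H z‖ := norm_pos_iff.mpr (hT.ne z (by change a < ‖z‖; linarith))
    have e1 : Real.log (CH * R ^ κ) = Real.log CH + κ * Real.log R := by
      rw [Real.log_mul (by linarith) (by positivity), Real.log_pow]
    have h3 := Real.log_le_log hHne h1
    have h4 := Real.log_nonneg h2
    rw [Real.log_mul (by positivity) hHne.ne', e1] at h4
    rw [e1] at h3
    simp only [Pi.abs_apply]
    rw [abs_le]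
    constructor <;> linarith
  have hGci : CircleIntegrable (fun z => Real.log ‖G z‖) 0 R :=
    MeromorphicOn.circleIntegrable_log_norm (fun z _ => hG z)
  have hsum : Real.circleAverage (fun z => Real.log ‖F z‖) 0 R =
      Real.circleAverage (fun z => Real.log ‖H z‖) 0 R +
        Real.circleAverage (fun z => Real.log ‖G z‖) 0 R := by
    rw [← Real.circleAverage_fun_add hHci hGci]
    apply Real.circleAverage_congr_codiscreteWithin _ hR0.ne'
    filter_upwards [hGne R, Filter.self_mem_codiscreteWithin _] with z hz hzs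
    rw [mem_sphere, dist_zero_right, habsR] at hzs
    have haz : a < ‖z‖ := by linarith
    rw [hFG z haz, norm_mul, Real.log_mul (norm_ne_zero_iff.mpr (hT.ne z haz))
      (norm_ne_zero_iff.mpr hz)]
  rw [hsum, hout, hJ, hin]
  have e2 : Real.circleAverage (fun z => Real.log ‖H z‖) 0 R +
      (∑ u ∈ S, g u + ∑ᶠ u ∈ {z : ℂ | r0 + 1 ≤ ‖z‖ ∧ ‖z‖ ≤ R}, g u + t0) -
      ∑ᶠ u ∈ {z : ℂ | r0 + 1 ≤ ‖z‖ ∧ ‖z‖ ≤ R}, g u =
      Real.circleAverage (fun z => Real.log ‖H z‖) 0 R + ∑ u ∈ S, g u + t0 := by ring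
  rw [e2]
  refine (abs_add_three _ _ _).trans ?_
  have h5 : 0 ≤ |t0| := abs_nonneg _
  have h6 : 0 ≤ (κ : ℝ) := Nat.cast_nonneg _
  nlinarith [mul_nonneg hlC hlR, mul_nonneg hK10 hlR, mul_nonneg h5 hlR, mul_nonneg h6 hlR]

/-- B3: Jensen's formula outside of a disc -/
theorem t_jen (hring : St_ring) : St_jen := by
  intro N c f hf
  have hord := (hring N c).2.2.2 f hf
  obtain ⟨C, hC⟩ := jensen_ext c.hr0 (c.val_mero f) hord
  exact ⟨C, fun R hR => hC R hR⟩

end Pool.Agent.Y248.OG
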